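import Pool.Agent.H25.BCE.Stmts

set_option autoImplicit false

namespace Pool.Agent.H25.BCE

open scoped ContDiff Topology
open Pool.Agent.H73

lemma En_contDiff31 : ContDiff ℝ ∞ En := solA_contDiff (k := 0) mu0 2

lemma isOpen_blk31 (r : ℤ × Gam) : IsOpen {y : P 3 | En (y + sh r) < dl} := by
  have h : Continuous fun y : P 3 => En (y + sh r) :=
    En_contDiff31.continuous.comp (continuous_id.add continuous_const)
  exact isOpen_lt h continuous_const

lemma fderiv_blk31 {F G : P 3 → ℝ} (r : ℤ × Gam)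
    (hFG : ∀ x : P 3, En (x + sh r) < dl → F x = G (x + sh r)) {x : P 3}
    (hx : En (x + sh r) < dl) : fderiv ℝ F x = fderiv ℝ G (x + sh r) := by
  have h1 : F =ᶠ[𝓝 x] fun y => G (y + sh r) := by
    filter_upwards [(isOpen_blk31 r).mem_nhds hx] with y hy using hFG y hy
  rw [h1.fderiv_eq, fderiv_comp_add_right]

lemma pb_blk31 {F G F' G' : P 3 → ℝ} (r : ℤ × Gam)
    (hFG : ∀ x : P 3, En (x + sh r) < dl → F x = G (x + sh r))
    (hFG' : ∀ x : P 3, En (x + sh r) < dl → F' x = G' (x + sh r)) {x : P 3}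
    (hx : En (x + sh r) < dl) : pb F F' x = pb G G' (x + sh r) := by
  unfold pb
  rw [fderiv_blk31 r hFG hx, fderiv_blk31 r hFG' hx]

lemma pb_ham_solG31 (i : Fin 3) (y : P 3) :
    pb (fun y => -cc * expNegInvGlue (dl - En y)) (solG mu0 dl 0 i) y = 0 := by
  have h1 : ContDiff ℝ ∞ (fun a : Fin (0 + 3) → ℝ => -cc * expNegInvGlue (dl - a 2)) :=
    contDiff_const.mul (expNegInvGlue.contDiff.comp (by fun_prop))
  have h2 : ContDiff ℝ ∞ (fun a : Fin (0 + 3) → ℝ => cutf dl a * Real.exp (-(a i))) := by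
    refine (cutf_contDiff dl).mul ?_
    fun_prop
  exact pb_comp_comp (A := solA mu0 0) (Θ := fun a => -cc * expNegInvGlue (dl - a 2))
    (Θ' := fun a => cutf dl a * Real.exp (-(a i)))
    (fun j => (solA_contDiff mu0 j).differentiable (by simp) _)
    (h1.differentiable (by simp) _) (h2.differentiable (by simp) _)
    (fun i j => solA_comm mu0 i j y)

theorem AA2_thm (hHAM : HAMStmt) (hAA1 : AA1Stmt) : AA2Stmt := by
  obtain ⟨_, hH, _⟩ := hHAM
  obtain ⟨_, hA, hA0, hAn⟩ := hAA1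
  refine ⟨fun i j x => ?_, fun i x => ?_⟩
  · by_cases hx : x ∈ BB
    · obtain ⟨r, hr⟩ := hx
      rw [pb_blk31 (G := solG mu0 dl 0 i) (G' := solG mu0 dl 0 j) r (fun y hy => hA i r y hy)
        (fun y hy => hA j r y hy) hr]
      exact solG_comm (k := 0) mu0 dl i j _
    · unfold pb
      rw [fderiv_of_min (hAn i) (hA0 i x hx), bk_zero_left]
  · by_cases hx : x ∈ BB
    · obtain ⟨r, hr⟩ := hx
      rw [pb_blk31 (G := fun y => -cc * expNegInvGlue (dl - En y)) (G' := solG mu0 dl 0 i) r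
        (fun y hy => hH r y hy) (fun y hy => hA i r y hy) hr]
      exact pb_ham_solG31 i _
    · unfold pb
      rw [fderiv_of_min (hAn i) (hA0 i x hx), bk_zero_right]

end Pool.Agent.H25.BCE
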