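import Pool.Agent.H31.BCE.AA2

set_option autoImplicit false

namespace Pool.Agent.H25.BCE

open scoped ContDiff Topology
open Pool.Agent.H73

lemma mu0_pos31 : 0 < mu0 := by
  exact mu0_pos

theorem AA3_thm (hAA1 : AA1Stmt) : AA3Stmt := by
  obtain ⟨_, hA, _, _⟩ := hAA1
  rintro x ⟨r, hr⟩ N hN
  -- the curve
  set z : P 3 := x + sh r with hz
  let γ : ℝ → P 3 := fun τ => ((pertQ (k := 0) z.1 τ, pertP (k := 0) z.2 τ) : P 3)
  have hγ0 : γ 0 = z := by
    refine Prod.ext ?_ ?_
    · funext i; simp [γ, pertQ]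
    · funext i; simp [γ, pertP]
  have hγc : Continuous γ := by
    refine Continuous.prodMk ?_ ?_
    · refine continuous_pi fun i => ?_
      unfold pertQ
      split_ifs
      · exact continuous_const
      · fun_prop
    · refine continuous_pi fun i => ?_
      unfold pertP
      fun_prop
  have hcurve : Continuous fun τ => γ τ - sh r := hγc.sub continuous_const
  have hval : γ 0 - sh r = x := by rw [hγ0, hz]; abel
  have hev : ∀ᶠ τ : ℝ in 𝓝 0, γ τ - sh r ∈ N ∩ {y : P 3 | En (y + sh r) < dl} := by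
    have h1 := hcurve.tendsto 0
    simp only [hval] at h1
    exact h1 (Filter.inter_mem hN ((isOpen_blk31 r).mem_nhds hr))
  obtain ⟨ρ, hρ, hball⟩ := Metric.eventually_nhds_iff_ball.1 hev
  have h3 := (good_of_pert (k := 0) mu0_pos31 z.1 z.2).dense_compl ℝ
  obtain ⟨τ, hτ1, hτ2⟩ := h3.inter_open_nonempty _ Metric.isOpen_ball
    ⟨0, Metric.mem_ball_self hρ⟩
  obtain ⟨hτN, hτW⟩ := hball τ hτ1
  refine ⟨γ τ - sh r, hτN, ⟨r, hτW⟩, ?_⟩
  have hgood : solGood (k := 0) mu0 (γ τ) := by
    by_contra hcon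
    exact hτ2 hcon
  have e1 : γ τ - sh r + sh r = γ τ := sub_add_cancel _ _
  have hW' : En (γ τ) < dl := by
    have := hτW
    rw [Set.mem_ofPred_eq, e1] at this
    exact this
  have hcd : cutdom (k := 0) dl (fun j => solA mu0 0 j (γ τ)) := by
    intro j h0 h1
    have : j = 2 := by
      fin_cases j
      · exact absurd rfl h0
      · exact absurd rfl h1
      · rfl
    subst this
    exact hW'
  have e2 : (fun i => fderiv ℝ (AA i) (γ τ - sh r)) =
      fun i => fderiv ℝ (solG mu0 dl 0 i) (γ τ) := by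
    funext i
    rw [fderiv_blk31 (G := solG mu0 dl 0 i) r (fun y hy => hA i r y hy) hτW, e1]
  rw [e2]
  exact solG_indep (k := 0) mu0_pos31 hgood hcd

end Pool.Agent.H25.BCE
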