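import Pool.Agent.H25.BCE.Stmts

set_option autoImplicit false

namespace Pool.Agent.H25.BCE

open scoped ContDiff Topology
open Pool.Agent.H73

theorem CC1_thm (hFDB : FDBStmt) : CC1Stmt := by
  classical
  have hOo : IsOpen (D0 \ closure BB) := hFDB.1.sdiff isClosed_closure
  obtain ⟨g, U, hg, hd, hUO, hdense⟩ := exists_fill (D0 \ closure BB) hOo
  obtain ⟨G, r, hr, hGs, hG0, hGU, hGz⟩ := sum_blocks hg hd
  have hGd : ∀ n i x, x ∈ U n → fderiv ℝ (G i) x = r n • fderiv ℝ (g n i) x := by
    intro n i x hx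
    have h1 : G i =ᶠ[𝓝 x] fun y => r n * g n i y := by
      filter_upwards [(hg n).isOpen.mem_nhds hx] with y hy using hGU n i y hy
    rw [h1.fderiv_eq]
    exact fderiv_const_mul (((hg n).smooth i).differentiable (by simp) x) (r n)
  have hcomm : ∀ i j x, pb (G i) (G j) x = 0 := by
    intro i j x
    by_cases hx : x ∈ ⋃ n, U n
    · obtain ⟨n, hn⟩ := Set.mem_iUnion.1 hx
      unfold pb
      rw [hGd n i x hn, hGd n j x hn, bk_smul_left, bk_smul_right]
      have := (hg n).comm i j x hn
      unfold pb at this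
      rw [this]; simp
    · unfold pb
      rw [fderiv_of_min (hG0 i) (hGz i x hx), bk_zero_left]
  refine ⟨G, hGs, hG0, ?_, hcomm, ?_⟩
  · intro i x hx
    refine hGz i x ?_
    intro hx'
    obtain ⟨n, hn⟩ := Set.mem_iUnion.1 hx'
    exact hx (hUO n hn)
  · choose D hDU hUD hDi using fun n => (hg n).indep
    intro x hx N hN
    have h3 : closure (⋃ n, U n) ⊆ closure (⋃ n, D n) :=
      closure_minimal (Set.iUnion_subset fun n =>
        (hUD n).trans (closure_mono (Set.subset_iUnion D n))) isClosed_closure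
    obtain ⟨y, hyN, hyD⟩ := mem_closure_iff_nhds.1 (h3 (hdense hx)) N hN
    obtain ⟨n, hn⟩ := Set.mem_iUnion.1 hyD
    have hyU := hDU n hn
    refine ⟨y, hyN, hUO n hyU, ?_⟩
    have h2 : (fun i => fderiv ℝ (G i) y) = fun i => r n • fderiv ℝ (g n i) y :=
      funext fun i => hGd n i y hyU
    rw [h2]
    exact (hDi n y hn).units_smul (fun _ => Units.mk0 (r n) (hr n).ne')

end Pool.Agent.H25.BCE
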