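import Pool.Agent.H25.BCE.Stmts

set_option autoImplicit false

namespace Pool.Agent.H25.BCE

open scoped ContDiff Topology
open Pool.Agent.H73

theorem COC_thm (hLA3 : LA3Stmt) (hCCP : CCPStmt) : COCStmt := by
  obtain ⟨-, hcov, -, hbdd⟩ := hLA3
  obtain ⟨-, hPer⟩ := hCCP
  obtain ⟨R, hR⟩ := (Metric.isBounded_iff_subset_closedBall (0 : ℝ × ℝ)).1 hbdd.closure
  have hPer0 : (0 : ℝ) < Per := by linarith
  refine ⟨Metric.closedBall 0 (|R| + 1 + Per), isCompact_closedBall _ _, fun x => ?_⟩
  set l : ℤ := -⌊x.1 2⌋ with hl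
  set j : ℤ := -⌊x.2 2 / Per⌋ with hj
  obtain ⟨a, ha, ha'⟩ := hcov ((LL l x).1 0, (LL l x).1 1)
  obtain ⟨b, hb, hb'⟩ := hcov ((LL l x).2 0, (LL l x).2 1)
  have ha2 := hR ha'
  have hb2 := hR hb'
  rw [mem_closedBall_zero_iff, Prod.norm_def, max_le_iff] at ha2 hb2
  simp only [Prod.fst_add, Prod.snd_add, Real.norm_eq_abs] at ha2 hb2
  have hRR := le_abs_self R
  refine ⟨dk l j a b, dk_mem ha hb, ?_⟩
  rw [mem_closedBall_zero_iff, dk_apply, Prod.norm_def, max_le_iff,
    pi_norm_le_iff_of_nonneg (by positivity), pi_norm_le_iff_of_nonneg (by positivity)]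
  have e1 : (LL l x).1 2 = x.1 2 := by simp [LL_fst, wt]
  have e2 : (LL l x).2 2 = x.2 2 := by simp [LL_snd, wt]
  have h1 : |(l : ℝ) + x.1 2| ≤ 1 := by
    rw [hl]
    push_cast
    have h3 := Int.floor_le (x.1 2)
    have h4 := Int.lt_floor_add_one (x.1 2)
    rw [abs_le]
    constructor <;> linarith
  have h2 : |(j : ℝ) * Per + x.2 2| ≤ Per := by
    rw [hj]
    push_cast
    have h3 := Int.floor_le (x.2 2 / Per)
    have h4 := Int.lt_floor_add_one (x.2 2 / Per)
    have h5 : x.2 2 = (x.2 2 / Per) * Per := by field_simp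
    rw [abs_le]
    constructor
    · nlinarith
    · nlinarith
  constructor
  · intro i
    fin_cases i
    · have : |a.1 + (LL l x).1 0| ≤ |R| + 1 + Per := by
        rw [add_comm a.1]; linarith [ha2.1]
      simpa [trn] using this
    · have : |a.2 + (LL l x).1 1| ≤ |R| + 1 + Per := by
        rw [add_comm a.2]; linarith [ha2.2]
      simpa [trn] using this
    · have : |(l : ℝ) + (LL l x).1 2| ≤ |R| + 1 + Per := by
        rw [e1]; linarith [abs_nonneg R]
      simpa [trn] using this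
  · intro i
    fin_cases i
    · have : |b.1 + (LL l x).2 0| ≤ |R| + 1 + Per := by
        rw [add_comm b.1]; linarith [hb2.1]
      simpa [trn] using this
    · have : |b.2 + (LL l x).2 1| ≤ |R| + 1 + Per := by
        rw [add_comm b.2]; linarith [hb2.2]
      simpa [trn] using this
    · have : |(j : ℝ) * Per + (LL l x).2 2| ≤ |R| + 1 + Per := by
        rw [e2]; linarith [abs_nonneg R]
      simpa [trn] using this

end Pool.Agent.H25.BCE
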